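import Pool.Agent.LE.StmtsQY

/-!
# Squad LQY, row HAR: Harnack for the imaginary part of the diagonal of the resolvent
-/

set_option autoImplicit false

open scoped InnerProductSpace ComplexConjugate

noncomputable section

namespace Pool.Agent.LE.QY.H64

open Pool.Agent.Anderson hiding box mem_box card_box
open Pool.Agent.Helper54.Bal

/-- the imaginary part of the diagonal of the resolvent -/
lemma im_diag {d : ℕ} {V : Site d → ℝ} {z : ℂ} (hz : z.im ≠ 0) (x : Site d) :
    (G V z (del x) x).im = z.im * ‖G V z (del x)‖ ^ 2 := by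
  rw [← (isRes_G V).im_inner hz, inner_del_left]

/-- HAR -/
theorem har : HarStmt := by
  intro d V E E' η η' x hη h1 h2 h3
  have hη' : 0 < η' := by linarith
  obtain ⟨z, hzd⟩ : ∃ z : ℂ, z = ⟨E, η⟩ := ⟨_, rfl⟩
  obtain ⟨w, hwd⟩ : ∃ w : ℂ, w = ⟨E', η'⟩ := ⟨_, rfl⟩
  have hzi : z.im = η := by rw [hzd]
  have hwi : w.im = η' := by rw [hwd]
  have hz : z.im ≠ 0 := by rw [hzi]; exact hη.ne'
  have hw : w.im ≠ 0 := by rw [hwi]; exact hη'.ne'
  rw [← hzd, ← hwd, im_diag hz, im_diag hw, hzi, hwi]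
  have hzw : ‖w - z‖ ≤ 2 * η := by
    have h4 := Complex.norm_le_abs_re_add_abs_im (w - z)
    have h5 : |(w - z).re| ≤ η := by
      rw [hwd, hzd, Complex.sub_re, abs_sub_comm]
      exact h3
    have h6 : |(w - z).im| ≤ η := by
      rw [Complex.sub_im, hwi, hzi, abs_le]
      constructor <;> linarith
    linarith
  have hid := (isRes_G V).ident_apply hw hz (del x)
  have hn : ‖G V w (del x)‖ ≤ 5 * ‖G V z (del x)‖ := by
    have h4 : G V w (del x) = G V z (del x) + (w - z) • G V w (G V z (del x)) := by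
      rw [← hid, add_sub_cancel]
    have h5 := (isRes_G V).norm_le hw (G V z (del x))
    rw [hwi, abs_of_pos hη'] at h5
    have h6 : ‖w - z‖ * ‖G V w (G V z (del x))‖ ≤ 4 * ‖G V z (del x)‖ := by
      calc ‖w - z‖ * ‖G V w (G V z (del x))‖ ≤ 2 * η * ‖G V w (G V z (del x))‖ :=
            mul_le_mul_of_nonneg_right hzw (norm_nonneg _)
        _ ≤ 4 * (η' * ‖G V w (G V z (del x))‖) := by
            have h7 := norm_nonneg (G V w (G V z (del x)))
            nlinarith
        _ ≤ 4 * ‖G V z (del x)‖ := by linarith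
    calc ‖G V w (del x)‖ = ‖G V z (del x) + (w - z) • G V w (G V z (del x))‖ := by rw [← h4]
      _ ≤ ‖G V z (del x)‖ + ‖(w - z) • G V w (G V z (del x))‖ := norm_add_le _ _
      _ = ‖G V z (del x)‖ + ‖w - z‖ * ‖G V w (G V z (del x))‖ := by rw [norm_smul]
      _ ≤ 5 * ‖G V z (del x)‖ := by linarith
  have hsq : ‖G V w (del x)‖ ^ 2 ≤ 25 * ‖G V z (del x)‖ ^ 2 := by
    have h4 := pow_le_pow_left₀ (norm_nonneg _) hn 2
    linarith [mul_pow (5 : ℝ) ‖G V z (del x)‖ 2]
  calc η' * ‖G V w (del x)‖ ^ 2 ≤ 2 * η * (25 * ‖G V z (del x)‖ ^ 2) :=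
        mul_le_mul h2 hsq (sq_nonneg _) (by linarith)
    _ = 50 * (η * ‖G V z (del x)‖ ^ 2) := by ring

end Pool.Agent.LE.QY.H64
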